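import Mathlib
import Pool.Agent.W890.SF.Stm
import Pool.Agent.FracEM.PM.Main

/-!
# SAM-NEP: perfect matchings in the non-extremal case
-/

set_option autoImplicit false

namespace Pool.Agent.W681.SAM

open Finset
open Pool.Agent.W890.SF
open Pool.Agent.FracEM.PMT

theorem bern2 (x : ℝ) (hx : 0 ≤ x) (m : ℕ) :
    1 + m * x + m * (m - 1) / 2 * x ^ 2 ≤ (1 + x) ^ m := by
  induction m with
  | zero => simp
  | succ m ih =>
    rw [pow_succ]
    have h1 := mul_le_mul_of_nonneg_right ih (by linarith : 0 ≤ 1 + x)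
    refine le_trans ?_ h1
    push_cast
    have h2 : (0 : ℝ) ≤ m * (m - 1) / 2 * x ^ 3 := by
      rcases Nat.eq_zero_or_pos m with rfl | hm
      · simp
      · have h3 : (1 : ℝ) ≤ m := by exact_mod_cast hm
        have h4 : (0 : ℝ) ≤ (m : ℝ) - 1 := by linarith
        positivity
    nlinarith

theorem t0_le (k : ℕ) (hk : 3 ≤ k) : (1 - 1 / (k : ℝ)) ^ (k - 1) ≤ 4 / 9 := by
  obtain ⟨m, rfl⟩ : ∃ m, k = m + 1 := ⟨k - 1, by omega⟩
  have hm : (2 : ℝ) ≤ m := by exact_mod_cast (by omega : 2 ≤ m)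
  have hm0 : (0 : ℝ) < m := by linarith
  have h1 := bern2 (1 / (m : ℝ)) (by positivity) m
  have h2 : (9 / 4 : ℝ) ≤ (1 + 1 / (m : ℝ)) ^ m := by
    refine le_trans ?_ h1
    have e : 1 + (m : ℝ) * (1 / (m : ℝ)) + (m : ℝ) * ((m : ℝ) - 1) / 2 * (1 / (m : ℝ)) ^ 2 =
        2 + ((m : ℝ) - 1) / (2 * m) := by
      field_simp; ring
    rw [e]
    have h3 : (1 / 4 : ℝ) ≤ ((m : ℝ) - 1) / (2 * m) := by
      rw [div_le_div_iff₀ (by norm_num) (by positivity)]
      linarith
    linarith
  have h3 : (1 - 1 / ((m + 1 : ℕ) : ℝ)) ^ m * (1 + 1 / (m : ℝ)) ^ m = 1 := by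
    rw [← mul_pow]
    have e : (1 - 1 / ((m + 1 : ℕ) : ℝ)) * (1 + 1 / (m : ℝ)) = 1 := by
      push_cast
      field_simp
      ring
    rw [e, one_pow]
  rw [Nat.add_sub_cancel]
  have h4 : 0 ≤ (1 - 1 / ((m + 1 : ℕ) : ℝ)) ^ m := by
    apply pow_nonneg
    have : 1 / ((m + 1 : ℕ) : ℝ) ≤ 1 := by
      rw [div_le_one (by positivity)]
      push_cast
      linarith
    linarith
  nlinarith

open Classical in
theorem link_card {n k : ℕ} (H : Finset (Finset (Fin n))) (hH : Unif k H) (x : Fin n) :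
    dg H x ≤ (((univ : Finset (Fin n)).powersetCard (k - 1)).filter
      (fun S => insert x S ∈ H)).card := by
  unfold dg
  apply Finset.card_le_card_of_injOn (fun e => e.erase x)
  · intro e he
    rw [Finset.mem_coe, mem_filter] at he
    rw [Finset.mem_coe, mem_filter, mem_powersetCard]
    refine ⟨⟨subset_univ _, ?_⟩, ?_⟩
    · rw [card_erase_of_mem he.2, hH e he.1]
    · show insert x (e.erase x) ∈ H
      rw [insert_erase he.2]
      exact he.1
  · intro e he e' he' h
    rw [Finset.mem_coe, mem_filter] at he he'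
    have h : e.erase x = e'.erase x := h
    rw [← insert_erase he.2, h, insert_erase he'.2]

open Classical in
theorem common {n k : ℕ} (H : Finset (Finset (Fin n))) (hH : Unif k H) (x x' : Fin n) :
    dg H x + dg H x' ≤ n.choose (k - 1) + (((univ : Finset (Fin n)).powersetCard (k - 1)).filter
      (fun S => insert x S ∈ H ∧ insert x' S ∈ H)).card := by
  have h1 := link_card H hH x
  have h2 := link_card H hH x'
  have h3 := Finset.card_union_add_card_inter
    (((univ : Finset (Fin n)).powersetCard (k - 1)).filter (fun S => insert x S ∈ H))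
    (((univ : Finset (Fin n)).powersetCard (k - 1)).filter (fun S => insert x' S ∈ H))
  rw [← filter_and] at h3
  have h4 : ((((univ : Finset (Fin n)).powersetCard (k - 1)).filter (fun S => insert x S ∈ H)) ∪
      (((univ : Finset (Fin n)).powersetCard (k - 1)).filter (fun S => insert x' S ∈ H))).card ≤
      n.choose (k - 1) := by
    calc _ ≤ ((univ : Finset (Fin n)).powersetCard (k - 1)).card :=
          card_le_card (union_subset (filter_subset _ _) (filter_subset _ _))
      _ = n.choose (k - 1) := by rw [card_powersetCard, card_univ, Fintype.card_fin]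
  omega

theorem sum_dg {n k : ℕ} (H : Finset (Finset (Fin n))) (hH : Unif k H) :
    ∑ v, dg H v = k * H.card := by
  unfold dg
  have h1 : ∀ v : Fin n, (H.filter (fun e => v ∈ e)).card = ∑ e ∈ H, if v ∈ e then 1 else 0 :=
    fun v => Finset.card_filter _ _
  rw [Finset.sum_congr rfl (fun v _ => h1 v), Finset.sum_comm]
  have h2 : ∀ e ∈ H, (∑ v : Fin n, if v ∈ e then 1 else 0) = k := by
    intro e he
    rw [← Finset.card_filter, Finset.filter_mem_eq_inter, Finset.univ_inter]
    exact hH e he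
  rw [Finset.sum_congr rfl h2, Finset.sum_const, smul_eq_mul, mul_comm]

open Classical in
theorem tuples {n k : ℕ} (H : Finset (Finset (Fin n))) (hH : Unif k H) :
    H.card ≤ ((univ : Finset (Fin k → Fin n)).filter (fun u => univ.image u ∈ H)).card := by
  have h : H ⊆ ((univ : Finset (Fin k → Fin n)).filter (fun u => univ.image u ∈ H)).image
      (fun u => univ.image u) := by
    intro e he
    let q := e.equivFinOfCardEq (hH e he)
    have himg : univ.image (fun i : Fin k => ((q.symm i : e) : Fin n)) = e := by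
      ext x
      simp only [mem_image, mem_univ, true_and]
      constructor
      · rintro ⟨i, rfl⟩
        exact (q.symm i).2
      · intro hx
        exact ⟨q ⟨x, hx⟩, by rw [Equiv.symm_apply_apply]⟩
    rw [mem_image]
    refine ⟨fun i => ((q.symm i : e) : Fin n), ?_, himg⟩
    rw [mem_filter]
    exact ⟨mem_univ _, by rw [himg]; exact he⟩
  exact (card_le_card h).trans card_image_le

theorem choose_lower {n k : ℕ} (hk : 1 ≤ k) (hn : 2 * k ≤ n) :
    ((n : ℝ) / 2) ^ (k - 1) ≤ ((k - 1).factorial : ℝ) * (((n - 1).choose (k - 1) : ℕ) : ℝ) := by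
  have h1 : (((n - 1 + 1 - (k - 1) : ℕ) ^ (k - 1) : ℕ) : ℝ) ≤
      ((k - 1).factorial : ℝ) * (((n - 1).choose (k - 1) : ℕ) : ℝ) := by
    have := Nat.pow_le_choose (α := ℝ) (k - 1) (n - 1)
    rw [div_le_iff₀ (by exact_mod_cast Nat.factorial_pos _), mul_comm] at this
    exact_mod_cast this
  refine le_trans ?_ h1
  push_cast
  apply pow_le_pow_left₀ (by positivity)
  have h2 : n ≤ 2 * (n - 1 + 1 - (k - 1)) := by omega
  have h3 : (n : ℝ) ≤ 2 * ((n - 1 + 1 - (k - 1) : ℕ) : ℝ) := by exact_mod_cast h2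
  linarith

theorem extr_up {n k : ℕ} (hk : 1 ≤ k) (γ : ℝ) (hγ : 0 < γ) (H : Finset (Finset (Fin n)))
    (hH : Unif k H) (Z : Finset (Fin n)) (hZ : (Z.card : ℝ) ≤ γ / 2 * n)
    (H' : Finset (Finset {v : Fin n // v ∉ Z}))
    (hH' : ∀ e, e ∈ H' ↔ e.map (Function.Embedding.subtype _) ∈ H)
    (h : Extr k (γ / 2) H') : Extr k γ H := by
  classical
  obtain ⟨A', h1, h2⟩ := h
  have hc : (Fintype.card {v : Fin n // v ∉ Z} : ℝ) ≤ n := by
    have := Fintype.card_subtype_le (fun v : Fin n => v ∉ Z)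
    rw [Fintype.card_fin] at this
    exact_mod_cast this
  have hn0 : (0 : ℝ) ≤ n := Nat.cast_nonneg n
  refine ⟨A'.map (Function.Embedding.subtype _), ?_, ?_⟩
  · rw [card_map, Fintype.card_fin]
    refine h1.trans ?_
    have hkk : (0 : ℝ) ≤ 1 / (k : ℝ) := by positivity
    calc (1 / (k : ℝ) + γ / 2) * (Fintype.card {v : Fin n // v ∉ Z} : ℝ)
        ≤ (1 / (k : ℝ) + γ / 2) * n := mul_le_mul_of_nonneg_left hc (by positivity)
      _ ≤ (1 / (k : ℝ) + γ) * n := mul_le_mul_of_nonneg_right (by linarith) hn0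
  · have hsub : H.filter (fun e => Disjoint e (A'.map (Function.Embedding.subtype _))) ⊆
        (H'.filter (fun e => Disjoint e A')).image (fun e => e.map (Function.Embedding.subtype _)) ∪
          Z.biUnion (fun z => H.filter (fun e => z ∈ e)) := by
      intro e he
      rw [mem_filter] at he
      by_cases hz : ∃ z ∈ Z, z ∈ e
      · obtain ⟨z, hz, hze⟩ := hz
        apply mem_union_right
        rw [mem_biUnion]
        exact ⟨z, hz, mem_filter.2 ⟨he.1, hze⟩⟩
      · apply mem_union_left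
        push Not at hz
        have hmap : (e.subtype (fun v => v ∉ Z)).map (Function.Embedding.subtype _) = e := by
          rw [Finset.subtype_map, Finset.filter_eq_self]
          intro x hx hxZ
          exact hz x hxZ hx
        rw [mem_image]
        refine ⟨e.subtype (fun v => v ∉ Z), ?_, hmap⟩
        rw [mem_filter, hH', hmap]
        refine ⟨he.1, ?_⟩
        rw [← Finset.disjoint_map (Function.Embedding.subtype _), hmap]
        exact he.2
    have hdeg : ∀ z : Fin n, (H.filter (fun e => z ∈ e)).card ≤ n ^ (k - 1) := by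
      intro z
      have h3 : (H.filter (fun e => z ∈ e)).card ≤ _ := link_card H hH z
      calc (H.filter (fun e => z ∈ e)).card ≤ _ := h3
        _ ≤ ((univ : Finset (Fin n)).powersetCard (k - 1)).card := card_filter_le _ _
        _ = n.choose (k - 1) := by rw [card_powersetCard, card_univ, Fintype.card_fin]
        _ ≤ n ^ (k - 1) := Nat.choose_le_pow _ _
    have h3 : (H.filter (fun e => Disjoint e (A'.map (Function.Embedding.subtype _)))).card ≤
        (H'.filter (fun e => Disjoint e A')).card + Z.card * n ^ (k - 1) := by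
      refine (card_le_card hsub).trans ((card_union_le _ _).trans ?_)
      exact Nat.add_le_add card_image_le (card_biUnion_le_card_mul _ _ _ (fun z _ => hdeg z))
    have h4 : ((H.filter (fun e => Disjoint e (A'.map (Function.Embedding.subtype _)))).card : ℝ) ≤
        ((H'.filter (fun e => Disjoint e A')).card : ℝ) + (Z.card : ℝ) * (n : ℝ) ^ (k - 1) := by
      exact_mod_cast h3
    have h5 : ((H'.filter (fun e => Disjoint e A')).card : ℝ) ≤ γ / 2 * (n : ℝ) ^ k := by
      have h6 : ((H'.filter (fun e => Disjoint e A')).card : ℝ) ≤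
          γ / 2 * (Fintype.card {v : Fin n // v ∉ Z} : ℝ) ^ k := by convert h2
      refine h6.trans (mul_le_mul_of_nonneg_left ?_ (by positivity))
      exact pow_le_pow_left₀ (Nat.cast_nonneg _) hc k
    have h6 : (Z.card : ℝ) * (n : ℝ) ^ (k - 1) ≤ γ / 2 * (n : ℝ) ^ k := by
      calc (Z.card : ℝ) * (n : ℝ) ^ (k - 1) ≤ γ / 2 * n * (n : ℝ) ^ (k - 1) :=
            mul_le_mul_of_nonneg_right hZ (by positivity)
        _ = γ / 2 * (n : ℝ) ^ k := by
            obtain ⟨m, rfl⟩ : ∃ m, k = m + 1 := ⟨k - 1, by omega⟩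
            rw [Nat.add_sub_cancel, pow_succ]; ring
    have h7 : ((H.filter (fun e => Disjoint e (A'.map (Function.Embedding.subtype _)))).card : ℝ) ≤
        γ * (n : ℝ) ^ k := by linarith
    rw [Fintype.card_fin]
    convert h7

theorem deg_down {n k : ℕ} (hk : 3 ≤ k) (hn : 2 ≤ n) (H : Finset (Finset (Fin n)))
    (hH : Unif k H) (Z : Finset (Fin n))
    (H' : Finset (Finset {v : Fin n // v ∉ Z}))
    (hH' : ∀ e, e ∈ H' ↔ e.map (Function.Embedding.subtype _) ∈ H)
    (t η η1 a : ℝ) (ht : t ≤ 4 / 9) (hη : η ≤ 1 / 100) (hη1 : 2 * η ≤ η1) (hη1' : 0 < η1)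
    (ha : 0 ≤ a) (ha' : 4 * k * a ≤ min η1 (1 / 4)) (hZ : (Z.card : ℝ) ≤ a * n)
    (hdeg : ∀ v, (1 - t - η) * (((n - 1).choose (k - 1) : ℕ) : ℝ) ≤ (dg H v : ℝ))
    (v : {v : Fin n // v ∉ Z}) :
    (1 - t - η1) * (((Fintype.card {v : Fin n // v ∉ Z} - 1).choose (k - 1) : ℕ) : ℝ) ≤
      (dg H' v : ℝ) := by
  classical
  set ε : ℝ := min η1 (1 / 4) with hε
  have hε0 : 0 < ε := lt_min hη1' (by norm_num)
  have hε1 : ε ≤ η1 := min_le_left _ _
  have hε2 : ε ≤ 1 / 4 := min_le_right _ _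
  have hw : Fintype.card {v : Fin n // v ∉ Z} ≤ n := by
    have := Fintype.card_subtype_le (fun v : Fin n => v ∉ Z)
    rwa [Fintype.card_fin] at this
  have h1 := deg_remove (w := Fintype.card {v : Fin n // v ∉ Z}) (by omega : 2 ≤ k) hn H hH Z
    (1 - t - η - ε) ε a ha (by linarith) hε0.le ha' hZ hw
    (fun v => by
      have := hdeg v
      have e : 1 - t - η - ε + ε = 1 - t - η := by ring
      rw [e]; exact this) v.1 v.2
  have h2 : deg (H.filter (fun e => e ⊆ univ \ Z)) v.1 ≤ dg H' v := by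
    unfold deg dg
    have hsub : (H.filter (fun e => e ⊆ univ \ Z)).filter (fun e => v.1 ∈ e) ⊆
        (H'.filter (fun e => v ∈ e)).image (fun e => e.map (Function.Embedding.subtype _)) := by
      intro e he
      rw [mem_filter, mem_filter] at he
      obtain ⟨⟨he, heZ⟩, hve⟩ := he
      have hmap : (e.subtype (fun v => v ∉ Z)).map (Function.Embedding.subtype _) = e := by
        rw [Finset.subtype_map, Finset.filter_eq_self]
        intro x hx
        exact (mem_sdiff.1 (heZ hx)).2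
      rw [mem_image]
      refine ⟨e.subtype (fun v => v ∉ Z), ?_, hmap⟩
      rw [mem_filter, hH', hmap]
      refine ⟨he, ?_⟩
      rw [Finset.mem_subtype]
      exact hve
    exact (card_le_card hsub).trans card_image_le
  have h3 : (1 - t - η1) * (((Fintype.card {v : Fin n // v ∉ Z} - 1).choose (k - 1) : ℕ) : ℝ) ≤
      (1 - t - η - ε + ε / 2) *
        (((Fintype.card {v : Fin n // v ∉ Z} - 1).choose (k - 1) : ℕ) : ℝ) := by
    apply mul_le_mul_of_nonneg_right _ (Nat.cast_nonneg _)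
    linarith
  have h4 : (deg (H.filter (fun e => e ⊆ univ \ Z)) v.1 : ℝ) ≤ (dg H' v : ℝ) := by exact_mod_cast h2
  refine h3.trans (le_trans ?_ h4)
  convert h1

/-- the hypotheses of the absorption lemma -/
theorem dense {n k : ℕ} (hk : 3 ≤ k) (hn : 36 * k ≤ n) (H : Finset (Finset (Fin n)))
    (hH : Unif k H) (hdeg : ∀ v, (27 / 50 : ℝ) * (((n - 1).choose (k - 1) : ℕ) : ℝ) ≤ (dg H v : ℝ)) :
    (1 / (2 ^ k * k * ((k - 1).factorial : ℝ))) * (n : ℝ) ^ k ≤ (H.card : ℝ) ∧
    ∀ x x' : Fin n, (1 / 20 : ℝ) * ((n.choose (k - 1) : ℕ) : ℝ) + ((n.choose (k - 1) : ℕ) : ℝ) ≤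
      (dg H x : ℝ) + (dg H x' : ℝ) := by
  have hn0 : (0 : ℝ) ≤ n := Nat.cast_nonneg n
  have hk0 : (0 : ℝ) < k := by exact_mod_cast (by omega : 0 < k)
  constructor
  · have h1 := choose_lower (n := n) (k := k) (by omega) (by omega)
    have h2 : (n : ℝ) * ((27 / 50 : ℝ) * (((n - 1).choose (k - 1) : ℕ) : ℝ)) ≤ k * (H.card : ℝ) := by
      have h3 : ∑ v : Fin n, (27 / 50 : ℝ) * (((n - 1).choose (k - 1) : ℕ) : ℝ) ≤
          ∑ v : Fin n, (dg H v : ℝ) := Finset.sum_le_sum (fun v _ => hdeg v)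
      rw [Finset.sum_const, card_univ, Fintype.card_fin, nsmul_eq_mul] at h3
      have h4 : ∑ v : Fin n, (dg H v : ℝ) = k * (H.card : ℝ) := by
        exact_mod_cast sum_dg H hH
      rwa [h4] at h3
    have hf : (0 : ℝ) < ((k - 1).factorial : ℝ) := by exact_mod_cast Nat.factorial_pos _
    have h5 : (n : ℝ) * ((n : ℝ) / 2) ^ (k - 1) ≤
        (n : ℝ) * (((k - 1).factorial : ℝ) * (((n - 1).choose (k - 1) : ℕ) : ℝ)) :=
      mul_le_mul_of_nonneg_left h1 hn0
    have h6 : (n : ℝ) ^ k = 2 ^ (k - 1) * ((n : ℝ) * ((n : ℝ) / 2) ^ (k - 1)) := by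
      obtain ⟨m, rfl⟩ : ∃ m, k = m + 1 := ⟨k - 1, by omega⟩
      rw [Nat.add_sub_cancel, div_pow, pow_succ]
      field_simp
    have h7 : (2 : ℝ) ^ k = 2 * 2 ^ (k - 1) := by
      obtain ⟨m, rfl⟩ : ∃ m, k = m + 1 := ⟨k - 1, by omega⟩
      rw [Nat.add_sub_cancel, pow_succ]; ring
    rw [h6, h7]
    have hp : (0 : ℝ) < 2 ^ (k - 1) := by positivity
    have e : 1 / (2 * 2 ^ (k - 1) * (k : ℝ) * ((k - 1).factorial : ℝ)) *
        (2 ^ (k - 1) * ((n : ℝ) * ((n : ℝ) / 2) ^ (k - 1))) =
        ((n : ℝ) * ((n : ℝ) / 2) ^ (k - 1)) / (2 * k * ((k - 1).factorial : ℝ)) := by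
      field_simp
    rw [e, div_le_iff₀ (by positivity)]
    have h8 : (n : ℝ) * (((n - 1).choose (k - 1) : ℕ) : ℝ) ≤ 2 * (k * (H.card : ℝ)) := by
      have : 0 ≤ (n : ℝ) * (((n - 1).choose (k - 1) : ℕ) : ℝ) := by positivity
      linarith
    calc (n : ℝ) * ((n : ℝ) / 2) ^ (k - 1)
        ≤ (n : ℝ) * (((k - 1).factorial : ℝ) * (((n - 1).choose (k - 1) : ℕ) : ℝ)) := h5
      _ = ((k - 1).factorial : ℝ) * ((n : ℝ) * (((n - 1).choose (k - 1) : ℕ) : ℝ)) := by ring
      _ ≤ ((k - 1).factorial : ℝ) * (2 * (k * (H.card : ℝ))) :=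
          mul_le_mul_of_nonneg_left h8 hf.le
      _ = (H.card : ℝ) * (2 * k * ((k - 1).factorial : ℝ)) := by ring
  · intro x x'
    have h1 := hdeg x
    have h2 := hdeg x'
    have h3 : (n : ℝ) * (((n - 1).choose (k - 1) : ℕ) : ℝ) =
        ((n.choose (k - 1) : ℕ) : ℝ) * ((n : ℝ) - ((k : ℝ) - 1)) := by
      have h4 : (n - 1).choose (k - 1) * n = n.choose (k - 1) * (n - (k - 1)) := by
        obtain ⟨m, rfl⟩ : ∃ m, n = m + 1 := ⟨n - 1, by omega⟩
        exact Nat.choose_mul_succ_eq m (k - 1)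
      have h5 : (((n - 1).choose (k - 1) * n : ℕ) : ℝ) = ((n.choose (k - 1) * (n - (k - 1)) : ℕ) : ℝ) := by
        rw [h4]
      rw [Nat.cast_mul, Nat.cast_mul, Nat.cast_sub (by omega : k - 1 ≤ n),
        Nat.cast_sub (by omega : 1 ≤ k), Nat.cast_one] at h5
      rw [mul_comm]; exact h5
    set C1 : ℝ := (((n - 1).choose (k - 1) : ℕ) : ℝ) with hC1
    set C0 : ℝ := ((n.choose (k - 1) : ℕ) : ℝ) with hC0
    have hC00 : 0 ≤ C0 := Nat.cast_nonneg _
    have hnk : (36 : ℝ) * k ≤ n := by exact_mod_cast hn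
    have hnpos : (0 : ℝ) < n := by linarith
    have h6 : (35 / 36 : ℝ) * C0 ≤ C1 := by
      have h7 : C0 * ((35 / 36 : ℝ) * n) ≤ n * C1 := by
        rw [h3]
        apply mul_le_mul_of_nonneg_left _ hC00
        linarith
      have h8 : (n : ℝ) * ((35 / 36 : ℝ) * C0) ≤ n * C1 := by linarith
      exact le_of_mul_le_mul_left h8 hnpos
    linarith

theorem nep (h1 : S_NEA) (h2 : Pool.Agent.W163.CF.S10) : S_NEP := by
  classical
  intro k hk γ hγ
  obtain ⟨η1, hη1, h1'⟩ := h1 k hk (γ / 2) (by linarith)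
  have ht := t0_le k hk
  set t : ℝ := (1 - 1 / (k : ℝ)) ^ (k - 1) with htdef
  have hk0 : (0 : ℝ) < k := by exact_mod_cast (by omega : 0 < k)
  set c : ℝ := min (1 / (2 ^ k * k * ((k - 1).factorial : ℝ))) (1 / 20) with hc
  have hc0 : 0 < c := lt_min (by positivity) (by norm_num)
  set a : ℝ := min (min (min η1 (1 / 4) / (4 * k)) (γ / 2)) (1 / 2) with ha
  have ha0 : 0 < a := by
    refine lt_min (lt_min ?_ (by linarith)) (by norm_num)
    have : 0 < min η1 (1 / 4) := lt_min hη1 (by norm_num)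
    positivity
  have ha1 : 4 * k * a ≤ min η1 (1 / 4) := by
    have h : a ≤ min η1 (1 / 4) / (4 * k) := (min_le_left _ _).trans (min_le_left _ _)
    rw [le_div_iff₀ (by positivity)] at h
    linarith
  have ha2 : a ≤ γ / 2 := (min_le_left _ _).trans (min_le_right _ _)
  have ha3 : a ≤ 1 / 2 := min_le_right _ _
  obtain ⟨b, hb, n10, hn10⟩ := h2 k (by omega) c a hc0 ha0
  obtain ⟨n8, hn8⟩ := h1' b hb
  refine ⟨min (η1 / 2) (1 / 100), lt_min (by linarith) (by norm_num), max (max n10 (36 * k)) (2 * n8),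
    fun n hn hkn H hH hdeg hE => ?_⟩
  have hn10' : n10 ≤ n := (le_max_left _ _).trans ((le_max_left _ _).trans hn)
  have hnk : 36 * k ≤ n := (le_max_right _ _).trans ((le_max_left _ _).trans hn)
  have hn8' : 2 * n8 ≤ n := (le_max_right _ _).trans hn
  set η : ℝ := min (η1 / 2) (1 / 100) with hη
  have hη2 : 2 * η ≤ η1 := by
    have : η ≤ η1 / 2 := min_le_left _ _
    linarith
  have hη3 : η ≤ 1 / 100 := min_le_right _ _
  have hdeg' : ∀ v, (1 - t - η) * (((n - 1).choose (k - 1) : ℕ) : ℝ) ≤ (dg H v : ℝ) := by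
    intro v
    have := hdeg v
    rwa [Fintype.card_fin] at this
  obtain ⟨hA, hB⟩ := dense hk hnk H hH (fun v => by
    refine le_trans ?_ (hdeg' v)
    apply mul_le_mul_of_nonneg_right _ (Nat.cast_nonneg _)
    linarith)
  have hn0 : (0 : ℝ) ≤ n := Nat.cast_nonneg n
  obtain ⟨Z, hZ, hZU⟩ := hn10 n hn10' H hH (by
      have h3 := tuples H hH
      have h4 : c * (n : ℝ) ^ k ≤ (H.card : ℝ) :=
        (mul_le_mul_of_nonneg_right (min_le_left _ _) (by positivity)).trans hA
      refine h4.trans ?_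
      exact_mod_cast h3) (by
      intro x x'
      have h3 := common H hH x x'
      have h4 : (dg H x : ℝ) + (dg H x' : ℝ) ≤ ((n.choose (k - 1) : ℕ) : ℝ) +
          ((((univ : Finset (Fin n)).powersetCard (k - 1)).filter
            (fun S => insert x S ∈ H ∧ insert x' S ∈ H)).card : ℝ) := by exact_mod_cast h3
      have h5 := hB x x'
      have h6 : c * ((n.choose (k - 1) : ℕ) : ℝ) ≤ 1 / 20 * ((n.choose (k - 1) : ℕ) : ℝ) :=
        mul_le_mul_of_nonneg_right (min_le_right _ _) (Nat.cast_nonneg _)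
      linarith)
  have hZ2 : (Z.card : ℝ) ≤ 1 / 2 * n :=
    hZ.trans (mul_le_mul_of_nonneg_right ha3 hn0)
  have hZ3 : (Z.card : ℝ) ≤ γ / 2 * n :=
    hZ.trans (mul_le_mul_of_nonneg_right ha2 hn0)
  have hV : Fintype.card {v : Fin n // v ∉ Z} = n - Z.card := by
    rw [Fintype.card_subtype_compl, Fintype.card_fin, Fintype.card_coe]
  have hZn : Z.card ≤ n := by
    have := Finset.card_le_univ Z
    rwa [Fintype.card_fin] at this
  have hV' : (Fintype.card {v : Fin n // v ∉ Z} : ℝ) = n - Z.card := by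
    rw [hV, Nat.cast_sub hZn]
  have hVn : n8 ≤ Fintype.card {v : Fin n // v ∉ Z} := by
    have h1 : (n8 : ℝ) ≤ (Fintype.card {v : Fin n // v ∉ Z} : ℝ) := by
      rw [hV']
      have h2 : (2 : ℝ) * n8 ≤ n := by exact_mod_cast hn8'
      linarith
    exact_mod_cast h1
  set H' : Finset (Finset {v : Fin n // v ∉ Z}) :=
    univ.filter (fun e => e.map (Function.Embedding.subtype _) ∈ H) with hH'def
  have hH' : ∀ e, e ∈ H' ↔ e.map (Function.Embedding.subtype _) ∈ H := fun e => by
    rw [hH'def, mem_filter]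
    exact ⟨fun h => h.2, fun h => ⟨mem_univ _, h⟩⟩
  have hU' : Unif k H' := by
    intro e he
    rw [hH'] at he
    have := hH _ he
    rwa [card_map] at this
  have hD' : DegC k η1 H' := fun v =>
    deg_down hk (by omega) H hH Z H' hH' t η η1 a ht hη3 hη2 hη1 ha0.le ha1 hZ hdeg' v
  have hE' : ¬ Extr k (γ / 2) H' := fun h =>
    hE (extr_up (by omega) γ hγ H hH Z hZ3 H' hH' h)
  obtain ⟨M, hM, hd, hMc⟩ := hn8 {v : Fin n // v ∉ Z} hVn H' hU' hD' hE'
  set W' : Finset (Fin n) := (M.biUnion id).map (Function.Embedding.subtype _) with hW'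
  have hP : PMon H W' := by
    refine ⟨M.image (fun e => e.map (Function.Embedding.subtype _)), ?_, ?_, ?_⟩
    · intro e' he'
      rw [Finset.mem_image] at he'
      obtain ⟨e, he, rfl⟩ := he'
      exact (hH' e).1 (hM he)
    · intro e he e' he' hne
      rw [Finset.mem_image] at he he'
      obtain ⟨e0, he0, rfl⟩ := he
      obtain ⟨e1, he1, rfl⟩ := he'
      rw [Finset.disjoint_map]
      exact hd e0 he0 e1 he1 (fun h => hne (by rw [h]))
    · ext x
      simp only [hW', Finset.mem_biUnion, Finset.mem_image, Finset.mem_map, id]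
      constructor
      · rintro ⟨_, ⟨e, he, rfl⟩, hx⟩
        rw [Finset.mem_map] at hx
        obtain ⟨y, hy, rfl⟩ := hx
        exact ⟨y, ⟨e, he, hy⟩, rfl⟩
      · rintro ⟨y, ⟨e, he, hy⟩, rfl⟩
        exact ⟨_, ⟨e, he, rfl⟩, Finset.mem_map_of_mem _ hy⟩
  have hW'c : W'.card = (M.biUnion id).card := Finset.card_map _
  have hMk : (M.biUnion id).card = M.card * k := by
    have h1 : (M.biUnion id).card = ∑ e ∈ M, (id e).card :=
      Finset.card_biUnion (fun x hx y hy hne => hd x hx y hy hne)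
    rw [h1, Finset.sum_congr rfl (fun e he => by rw [id, hU' e (hM he)]),
      Finset.sum_const, smul_eq_mul]
  have hZW : Disjoint Z W' := by
    rw [Finset.disjoint_left]
    intro x hx hx'
    rw [hW', Finset.mem_map] at hx'
    obtain ⟨y, _, rfl⟩ := hx'
    exact y.2 hx
  let U : Finset (Fin n) := univ \ (Z ∪ W')
  have hUc : U.card + (Z.card + W'.card) = n := by
    have h1 : U.card = n - (Z ∪ W').card := by
      change (univ \ (Z ∪ W')).card = _
      rw [Finset.card_sdiff_of_subset (Finset.subset_univ _), Finset.card_univ, Fintype.card_fin]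
    have h2 : (Z ∪ W').card ≤ n := by
      have := Finset.card_le_univ (Z ∪ W')
      rwa [Fintype.card_fin] at this
    rw [Finset.card_union_of_disjoint hZW] at h1 h2
    omega
  have hPZ : PMon H Z := by
    have := hZU ∅ (Finset.disjoint_empty_left _) (by
      rw [Finset.card_empty, Nat.cast_zero]; exact mul_nonneg hb.le hn0) (by
      rw [Finset.card_empty]; exact dvd_zero _)
    rwa [Finset.union_empty] at this
  have hkZ : k ∣ Z.card := PMon_card H hH Z hPZ
  have hkW : k ∣ W'.card := PMon_card H hH W' hP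
  have hkU : k ∣ U.card := by
    have h1 : k ∣ U.card + (Z.card + W'.card) := by rw [hUc]; exact hkn
    exact (Nat.dvd_add_left (dvd_add hkZ hkW)).1 h1
  have hUZ : Disjoint U Z := by
    rw [Finset.disjoint_left]
    intro x hx hx'
    exact (Finset.mem_sdiff.1 hx).2 (Finset.mem_union_left _ hx')
  have hUW : Disjoint U W' := by
    rw [Finset.disjoint_left]
    intro x hx hx'
    exact (Finset.mem_sdiff.1 hx).2 (Finset.mem_union_right _ hx')
  have hUb : (U.card : ℝ) ≤ b * n := by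
    have h1 : (U.card : ℝ) + (Z.card + W'.card) = n := by exact_mod_cast hUc
    have h2 : (W'.card : ℝ) = k * (M.card : ℝ) := by
      rw [hW'c, hMk]; push_cast; ring
    rw [← h2, hV'] at hMc
    have h3 : b * ((n : ℝ) - Z.card) ≤ b * n :=
      mul_le_mul_of_nonneg_left (by linarith [(Nat.cast_nonneg Z.card : (0:ℝ) ≤ Z.card)]) hb.le
    linarith
  have hPU := hZU U hUZ hUb hkU
  have hfin : PMon H ((Z ∪ U) ∪ W') :=
    PMon_union _ _ _ (Finset.disjoint_union_left.2 ⟨hZW, hUW⟩) hPU hP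
  have huniv : (Z ∪ U) ∪ W' = univ := by
    apply Finset.eq_univ_of_forall
    intro x
    by_cases hx : x ∈ Z ∪ W'
    · rcases Finset.mem_union.1 hx with h | h
      · exact Finset.mem_union_left _ (Finset.mem_union_left _ h)
      · exact Finset.mem_union_right _ h
    · exact Finset.mem_union_left _ (Finset.mem_union_right _ (Finset.mem_sdiff.2 ⟨Finset.mem_univ _, hx⟩))
  rw [huniv] at hfin
  obtain ⟨M1, hM1, hd1, hU1⟩ := hfin
  refine ⟨M1, hM1, hd1, ?_⟩
  have h1 : (M1.biUnion id).card = ∑ e ∈ M1, (id e).card :=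
    Finset.card_biUnion (fun x hx y hy hne => hd1 x hx y hy hne)
  rw [hU1, Finset.card_univ, Fintype.card_fin,
    Finset.sum_congr rfl (fun e he => by rw [id, hH e (hM1 he)]), Finset.sum_const, smul_eq_mul] at h1
  exact Nat.eq_div_of_mul_eq_left (by omega) h1.symm

end Pool.Agent.W681.SAM
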